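import Mathlib
import Pool.Agent.R449.AI.Cnt
import Pool.Agent.R449.SP.Sil

set_option autoImplicit false

/-!
# All indices: almost every real solution of the recursion of `64 b ^ 2 + 9 = 8 d ^ 2 + 1`

The positive solutions of `d ^ 2 - 8 b ^ 2 = 1` are `d_m + b_m √8 = (3 + √8) ^ m`, and
`N m = 8 d_m ^ 2 + 1 = 64 b_m ^ 2 + 9 = 2 γ ^ m + 5 + 2 γ ^ (-m)` with `γ = (3 + √8) ^ 2 = 17 + 12 √2`.
The numbers `Z β B m = β γ ^ m + 5 + B γ ^ (-m)` are, for real `β` and `B`, the real solutions of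
`Z (m + 2) + Z m = 34 Z (m + 1) - 160`, and `Z 2 2 m = N m`.  For an index `m`, prime or not, let
`W β B m` be the `m`-rough part (the product, with multiplicity, of the prime factors larger than
`m`) of `⌊Z β B m⌋`.  If `N m` is prime then `N m` has no prime factor `≤ m`, and then
`W 2 2 m = N m`.

We prove that for every `B` and almost every `β > 0` the number of the indices `m ≤ n` for which
`W β B m` is prime is `(e ^ γ' / (2 log γ)) (log n) ^ 2` up to an error of size
`(log n) ^ (3 / 2) (log log n) ^ (5 / 2)` (`γ'` the constant of Euler), and the same along any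
countable family of sets of indices, such as the residue classes or the set of the `m` for which `N m`
has no prime factor `≤ m`.
-/

namespace Pool.Agent.Results.MP_f53aaa_nt.AllIndices

open Filter Topology MeasureTheory Asymptotics

/-- The positive solutions `(d_m, b_m)` of `d ^ 2 - 8 b ^ 2 = 1`. -/
def pell : ℕ → ℕ × ℕ
  | 0 => (1, 0)
  | (m + 1) => (3 * (pell m).1 + 8 * (pell m).2, (pell m).1 + 3 * (pell m).2)

/-- `N m = 8 d_m ^ 2 + 1`. -/
def N (m : ℕ) : ℕ := 8 * (pell m).1 ^ 2 + 1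

/-- The base `(3 + √8) ^ 2`. -/
noncomputable def base : ℝ := 17 + 12 * Real.sqrt 2

/-- The real solutions of `Z (m + 2) + Z m = 34 Z (m + 1) - 160`. -/
noncomputable def Z (β B : ℝ) (m : ℕ) : ℝ := β * base ^ m + 5 + B * (base ^ m)⁻¹

/-- The product, with multiplicity, of the prime factors of `k` that are larger than `m`. -/
def roughPart (m k : ℕ) : ℕ := (k.primeFactorsList.filter (fun r => m < r)).prod

/-- The `m`-rough part of `⌊Z β B m⌋`. -/
noncomputable def W (β B : ℝ) (m : ℕ) : ℕ := roughPart m ⌊Z β B m⌋₊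

/-- The indices `m` for which `N m` has no prime factor `≤ m`. -/
def roughIndices : Set ℕ := {m | ∀ q : ℕ, q.Prime → q ∣ N m → m < q}

open Classical in
/-- The number of the indices `m ≤ n` in the set `S` for which `W β B m` is prime. -/
noncomputable def T (S : Set ℕ) (β B : ℝ) (n : ℕ) : ℕ :=
  ((Finset.range (n + 1)).filter (fun m => m ∈ S ∧ (W β B m).Prime)).card

open Classical in
/-- The sum of `log m / m` over the `m ≤ n` in the set `S`. -/
noncomputable def V (S : Set ℕ) (n : ℕ) : ℝ :=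
  ∑ m ∈ (Finset.range (n + 1)).filter (fun m => m ∈ S), Real.log m / m

/-- The error term `(log n) ^ (3 / 2) (log log n) ^ (5 / 2)`. -/
noncomputable def E (n : ℕ) : ℝ := Real.sqrt (Real.log n ^ 3 * Real.log (Real.log n) ^ 5)

lemma base_eq : base = (1 + Real.sqrt 2) ^ 4 := by
  have h := Pool.Agent.R449.SP.s2_sq
  unfold base
  have h2 : (1 + Real.sqrt 2) ^ 4 = ((1 + Real.sqrt 2) ^ 2) ^ 2 := by ring
  rw [h2]
  have h3 : (1 + Real.sqrt 2) ^ 2 = 3 + 2 * Real.sqrt 2 := by linear_combination h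
  rw [h3]
  linear_combination (-4 : ℝ) * h

lemma one_lt_base : 1 < base := by
  unfold base
  linarith [Pool.Agent.R449.SP.s2_pos]

lemma base_quad : base ^ 2 = 34 * base - 1 := by
  have h := Pool.Agent.R449.SP.s2_sq
  unfold base
  linear_combination (144 : ℝ) * h

lemma inv_quad : (base⁻¹) ^ 2 = 34 * base⁻¹ - 1 := by
  have h0 : base ≠ 0 := by linarith [one_lt_base]
  field_simp
  linarith [base_quad]

lemma Z_rec (β B : ℝ) (m : ℕ) : Z β B (m + 2) + Z β B m = 34 * Z β B (m + 1) - 160 := by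
  unfold Z
  rw [← inv_pow, ← inv_pow, ← inv_pow, pow_add, pow_add, pow_add, pow_add, base_quad, inv_quad,
    pow_one, pow_one]
  ring

lemma pell_eq (m : ℕ) : (pell m).1 ^ 2 = 8 * (pell m).2 ^ 2 + 1 := by
  induction m with
  | zero => decide
  | succ m ih =>
    have hs : pell (m + 1) = (3 * (pell m).1 + 8 * (pell m).2, (pell m).1 + 3 * (pell m).2) := rfl
    rw [hs]
    simp only
    nlinarith [ih]

lemma N_eq (m : ℕ) : N m = 64 * (pell m).2 ^ 2 + 9 := by
  unfold N
  rw [pell_eq]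
  ring

/-- the closed form -/
lemma pell_form (m : ℕ) : ((pell m).1 : ℝ) + (pell m).2 * (2 * Real.sqrt 2) = (3 + 2 * Real.sqrt 2) ^ m ∧
    ((pell m).1 : ℝ) - (pell m).2 * (2 * Real.sqrt 2) = (3 - 2 * Real.sqrt 2) ^ m := by
  have h := Pool.Agent.R449.SP.s2_sq
  induction m with
  | zero => constructor <;> simp [pell]
  | succ m ih =>
    have hs : pell (m + 1) = (3 * (pell m).1 + 8 * (pell m).2, (pell m).1 + 3 * (pell m).2) := rfl
    rw [hs, pow_succ, pow_succ, ← ih.1, ← ih.2]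
    push_cast
    constructor
    · linear_combination (-(4 : ℝ) * ((pell m).2 : ℝ)) * h
    · linear_combination (-(4 : ℝ) * ((pell m).2 : ℝ)) * h

lemma Z_two (m : ℕ) : Z 2 2 m = N m := by
  obtain ⟨h1, h2⟩ := pell_form m
  have h := Pool.Agent.R449.SP.s2_sq
  have hb : base = (3 + 2 * Real.sqrt 2) ^ 2 := by
    unfold base
    linear_combination (-4 : ℝ) * h
  have e1 : base ^ m = ((3 + 2 * Real.sqrt 2) ^ m) ^ 2 := by
    rw [hb, ← pow_mul, ← pow_mul, mul_comm 2 m]
  have hone : (3 + 2 * Real.sqrt 2) * (3 - 2 * Real.sqrt 2) = 1 := by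
    linear_combination (-4 : ℝ) * h
  have e2 : (base ^ m)⁻¹ = ((3 - 2 * Real.sqrt 2) ^ m) ^ 2 := by
    refine inv_eq_of_mul_eq_one_right ?_
    rw [e1, ← mul_pow, ← mul_pow, hone, one_pow, one_pow]
  unfold Z
  rw [e2, e1, ← h1, ← h2]
  unfold N
  push_cast
  have h3 : ((pell m).1 : ℝ) ^ 2 = 8 * (pell m).2 ^ 2 + 1 := by exact_mod_cast pell_eq m
  linear_combination (16 * ((pell m).2 : ℝ) ^ 2) * h - 4 * h3

lemma W_two {m : ℕ} (hm : m ∈ roughIndices) : W 2 2 m = N m := by
  unfold W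
  rw [Z_two, Nat.floor_natCast]
  exact Pool.Agent.H447R2.ML.roughPart_eq_self (by unfold N; omega) hm

lemma rough_of_prime {m : ℕ} (hN : (N m).Prime) : m ∈ roughIndices := by
  intro q hq hd
  rw [(Nat.prime_dvd_prime_iff_eq hq hN).1 hd]
  have h1 : ∀ k : ℕ, k < 8 * (pell k).1 ^ 2 + 1 ∧ 1 ≤ (pell k).1 := by
    intro k
    induction k with
    | zero => decide
    | succ k ih =>
      have hs : pell (k + 1) = (3 * (pell k).1 + 8 * (pell k).2, (pell k).1 + 3 * (pell k).2) := rfl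
      rw [hs]
      simp only
      constructor
      · nlinarith [ih.1, ih.2, Nat.zero_le (pell k).2]
      · omega
  exact (h1 m).1

/-- the Diophantine condition for the powers of the base -/
lemma dio (h a b : ℕ) (hh : 1 ≤ h) (ha : 1 ≤ a) (hb : 1 ≤ b) :
    1 ≤ |(a : ℝ) - b * base ^ h| * ((1 : ℝ) ^ h * (a + b)) := by
  have h1 := Pool.Agent.H19P.dio_unit Pool.Agent.R449.SP.one_lt_al Pool.Agent.R449.SP.al_add
    Pool.Agent.R449.SP.al_mul (4 * h) a b (by omega) ha hb
  rw [one_pow] at h1 ⊢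
  rw [base_eq, ← pow_mul]
  exact h1

lemma law (B : ℝ) (S : Set ℕ) : ∀ᵐ β : ℝ, 0 < β →
    (fun n : ℕ => (Pool.Agent.R449.AI.cA S (fun p => ⌊Z β B p⌋₊) n : ℝ) -
      Real.exp Real.eulerMascheroniConstant / Real.log base * Pool.Agent.R449.AI.VA S n)
      =O[atTop] Pool.Agent.R449.AI.er := by
  have hb := one_lt_base
  have hg : ∀ p : ℕ, |(fun p : ℕ => 5 + B * (base ^ p)⁻¹) p| ≤ (5 + |B|) * (1 : ℝ) ^ p := by
    intro p
    simp only
    rw [one_pow, mul_one]
    have h1 : (1 : ℝ) ≤ base ^ p := one_le_pow₀ hb.le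
    have h2 : |(base ^ p)⁻¹| ≤ 1 := by
      rw [abs_of_pos (by positivity)]
      exact inv_le_one_of_one_le₀ h1
    calc |5 + B * (base ^ p)⁻¹| ≤ |(5 : ℝ)| + |B * (base ^ p)⁻¹| := abs_add_le _ _
      _ = 5 + |B| * |(base ^ p)⁻¹| := by rw [abs_mul, abs_of_pos (by norm_num : (0 : ℝ) < 5)]
      _ ≤ 5 + |B| * 1 := by
          have := mul_le_mul_of_nonneg_left h2 (abs_nonneg B)
          linarith
      _ = _ := by ring
  have hnear : Pool.Agent.TH888.R.Near base (fun p : ℕ => 5 + B * (base ^ p)⁻¹) := fun b0 =>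
    Pool.Agent.W66V.near_irr hb zero_le_one hb hg le_rfl hb
      (fun h a b hh ha hb => dio h a b hh ha hb) b0
  have key := Pool.Agent.R449.AI.law_all hb zero_le_one hb hg hnear S
  filter_upwards [key] with β hβ h0
  have e : (fun p => ⌊Z β B p⌋₊) = fun p : ℕ => ⌊β * base ^ p + (5 + B * (base ^ p)⁻¹)⌋₊ := by
    funext p
    congr 1
    unfold Z
    ring
  rw [e]
  exact hβ h0

lemma V_eq (S : Set ℕ) (n : ℕ) : V S n = Pool.Agent.R449.AI.VA S n := by
  classical
  unfold V Pool.Agent.R449.AI.VA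
  rw [Finset.sum_filter]
  refine Finset.sum_congr rfl fun p _ => ?_
  by_cases h : p ∈ S
  · rw [if_pos h, if_pos h]
    rfl
  · rw [if_neg h, if_neg h]

lemma T_eq (S : Set ℕ) (β B : ℝ) (n : ℕ) : T S β B n =
    Pool.Agent.R449.AI.cA S (fun p => ⌊Z β B p⌋₊) n := by
  classical
  unfold T Pool.Agent.R449.AI.cA
  rfl

lemma law_set (B : ℝ) (S : Set ℕ) : ∀ᵐ β : ℝ, 0 < β →
    (fun n : ℕ => (T S β B n : ℝ) - Real.exp Real.eulerMascheroniConstant / Real.log base * V S n)
      =O[atTop] E := by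
  filter_upwards [law B S] with β hβ h0
  simp only [T_eq, V_eq]
  exact hβ h0

/-- **The law over all indices.** -/
theorem result :
    (∀ m : ℕ, (pell m).1 ^ 2 = 8 * (pell m).2 ^ 2 + 1 ∧ N m = 64 * (pell m).2 ^ 2 + 9 ∧
      Z 2 2 m = N m) ∧
    (∀ (β B : ℝ) (m : ℕ), Z β B (m + 2) + Z β B m = 34 * Z β B (m + 1) - 160) ∧
    (∀ m : ℕ, (N m).Prime → m ∈ roughIndices) ∧
    (∀ m ∈ roughIndices, W 2 2 m = N m) ∧
    (∀ B : ℝ, ∀ᵐ β : ℝ, 0 < β →
      (fun n : ℕ => (T Set.univ β B n : ℝ) -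
        Real.exp Real.eulerMascheroniConstant / (2 * Real.log base) * Real.log n ^ 2) =O[atTop] E) ∧
    (∀ (B : ℝ) (S : ℕ → Set ℕ), ∀ᵐ β : ℝ, 0 < β → ∀ i : ℕ,
      (fun n : ℕ => (T (S i) β B n : ℝ) -
        Real.exp Real.eulerMascheroniConstant / Real.log base * V (S i) n) =O[atTop] E) ∧
    (∀ B : ℝ, ∀ᵐ β : ℝ, 0 < β →
      (fun n : ℕ => (T roughIndices β B n : ℝ) -
        Real.exp Real.eulerMascheroniConstant / Real.log base * V roughIndices n) =O[atTop] E) := by
  refine ⟨fun m => ⟨pell_eq m, N_eq m, Z_two m⟩, Z_rec, fun _ hN => rough_of_prime hN,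
    fun _ hm => W_two hm, fun B => ?_, fun B S => ?_, fun B => law_set B roughIndices⟩
  · filter_upwards [law B Set.univ] with β hβ h0
    have h1 := Pool.Agent.R449.AI.univ_form (hβ h0)
    simp only [T_eq]
    refine h1.congr_left fun n => ?_
    ring
  · have h1 := ae_all_iff.2 fun i : ℕ => law_set B (S i)
    filter_upwards [h1] with β hβ h0 i
    exact hβ i h0

end Pool.Agent.Results.MP_f53aaa_nt.AllIndices
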