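import Pool.Agent.R803.PellVals3

/-! # MP_f53aaa_nt: small prime factors of the numbers `8 d_m ^ 2 + 1` -/

set_option autoImplicit false

namespace Pool.Agent.Results.MP_f53aaa_nt.SmallPrimeFactors

open Pool.Agent.R803.PV

theorem result :
    -- the numbers `N_m`
    (∀ m : ℕ, ((db m).1 : ℝ) + ((db m).2 : ℝ) * √8 = (3 + √8) ^ m ∧
      N m = 8 * (db m).1 ^ 2 + 1 ∧ N m = 64 * (db m).2 ^ 2 + 9) ∧
    -- (A) every value `N_{m0}` recurs: `N_m = N_{m0} R` with `R` free of small primes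
    (∀ ε : ℝ, 0 < ε → ε < 1 → ∃ c : ℝ, 0 < c ∧ ∀ m0 L : ℕ, 0 < L → ∃ X0 : ℕ, ∀ X : ℕ, X0 ≤ X →
      (X : ℝ) ^ (1 - ε) ≤ (Nat.card {m : ℕ // 1 ≤ m ∧ m ≤ X ∧ m ≡ m0 [MOD L] ∧
        ∃ R : ℕ, N m = N m0 * R ∧ ∀ q : ℕ, q.Prime → q ∣ R →
          c * (Real.log X * Real.log (Real.log X) / Real.log (Real.log (Real.log X))) < q} : ℝ)) ∧
    -- (B) for many odd `m` the only small prime factors of `N_m` are divisors of Fermat numbers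
    (∀ ε : ℝ, 0 < ε → ε < 1 → ∃ c : ℝ, 0 < c ∧ ∃ X0 : ℕ, ∀ X : ℕ, X0 ≤ X →
      (X : ℝ) ^ (1 - ε) ≤ (Nat.card {m : ℕ // 1 ≤ m ∧ m ≤ X ∧ Odd m ∧
        ∀ q : ℕ, q.Prime → q ∣ N m →
          c * (Real.log X * Real.log (Real.log X) / Real.log (Real.log (Real.log X))) < q ∨
          ∃ j : ℕ, q ∣ 2 ^ (2 ^ j) + 1 ∧ 2 ^ (j + 3) ∣ q - 1} : ℝ)) :=
  ⟨fun m => ⟨real_eq m, rfl, N_eq m⟩, partA, partB⟩

end Pool.Agent.Results.MP_f53aaa_nt.SmallPrimeFactors
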